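import Pool.Agent.Lib.helper10.FPT

namespace Pool.Agent.Results.MP_3f5cd8_lc.FPT

open Pool.Agent.Cx Pool.Agent.Cis Polynomial

/-- local complement: toggle the adjacency of distinct neighbours of `a` -/
def locComp {V : Type} (G : SimpleGraph V) (a : V) : SimpleGraph V where
  Adj x y := x ≠ y ∧ ¬ (G.Adj x y ↔ G.Adj a x ∧ G.Adj a y)
  symm := ⟨fun x y h => ⟨h.1.symm, by rw [G.adj_comm, and_comm]; exact h.2⟩⟩
  loopless := ⟨fun _ h => h.1 rfl⟩

open Classical in
/-- local inversion of a bicoloured graph, colours in `{-1, 1}` -/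
noncomputable def locInv {V : Type} (B : SimpleGraph V × (V → ℤˣ)) (a : V) :
    SimpleGraph V × (V → ℤˣ) :=
  (locComp B.1 a, fun x => if B.1.Adj a x then -B.2 x else B.2 x)

/-- `cr(G) ≤ k` -/
def CrLE {V : Type} (G : SimpleGraph V) (k : ℕ) : Prop :=
  ∀ β : V → ℤˣ, ∃ w : List V, w.length ≤ k ∧ w.foldl locInv (G, β) = (G, -β)

def CR (z : List (List Bool) × ℕ) : Prop := IsGraph z.1 ∧ CrLE (graphOf z.1) z.2

open Classical in
lemma gram {V : Type} (w : List V) : ∀ B : SimpleGraph V × (V → ℤˣ),
    ∃ A : Matrix V (Fin w.length) (ZMod 2), ∀ x y, ∑ i, A x i * A y i =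
      if (if x = y then (w.foldl locInv B).2 x = B.2 x else
        ((w.foldl locInv B).1.Adj x y ↔ B.1.Adj x y)) then 0 else 1 := by
  induction w with
  | nil => exact fun B => ⟨0, by simp⟩
  | cons a w ih =>
    intro B
    obtain ⟨A, h⟩ := ih (locInv B a)
    refine ⟨fun x => Fin.cons (if B.1.Adj a x then 1 else 0) (A x), fun x y => ?_⟩
    simp only [List.length_cons, Fin.sum_univ_succ, Fin.cons_zero, Fin.cons_succ, h, List.foldl_cons]
    generalize w.foldl locInv (locInv B a) = E
    by_cases e : x = y
    · subst e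
      rcases Int.units_eq_one_or (B.2 x) with b | b <;> rcases Int.units_eq_one_or (E.2 x) with c | c <;>
        by_cases d : B.1.Adj a x <;> simp [locInv, b, c, d] <;> decide
    · by_cases b : B.1.Adj a x <;> by_cases c : B.1.Adj a y <;> by_cases d : B.1.Adj x y <;>
        by_cases f : E.1.Adj x y <;> simp [locInv, locComp, e, b, c, d, f] <;> decide

lemma lower {V : Type} [Fintype V] {G : SimpleGraph V} {k : ℕ} (h : CrLE G k) : Fintype.card V ≤ k := by
  classical
  obtain ⟨w, h1, h2⟩ := h 1
  obtain ⟨A, h⟩ := gram w (G, 1)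
  have : A * A.transpose = 1 := by
    ext x y
    rw [Matrix.mul_apply, Matrix.one_apply]
    simp only [Matrix.transpose_apply, h, h2]
    split_ifs <;> simp_all
  have e := Matrix.rank_mul_le_left A A.transpose
  rw [this, Matrix.rank_one] at e
  exact e.trans (A.rank_le_card_width.trans (by simpa))

abbrev St := List (List Bool) × List Bool

def stp (n : ℕ) (s : St) (a : ℕ) : St :=
  (mat (List.range n) fun x y => decide (x ≠ y) && xor (ent s.1 x y) (ent s.1 a x && ent s.1 a y),
    (List.range n).map fun x => xor (ent s.1 a x) (s.2.getD x false))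

def Rep {n : ℕ} (β : Fin n → ℤˣ) (s : St) (B : SimpleGraph (Fin n) × (Fin n → ℤˣ)) : Prop :=
  (∀ x y, B.1.Adj x y ↔ ent s.1 x y = true) ∧ ∀ x, B.2 x = if s.2.getD x false then -β x else β x

lemma rep {n : ℕ} (β : Fin n → ℤˣ) (w : List (Fin n)) : ∀ s B, Rep β s B →
    Rep β ((w.map Fin.val).foldl (stp n) s) (w.foldl locInv B) := by
  induction w with
  | nil => exact fun _ _ h => h
  | cons a w ih =>
    refine fun s B h => ih _ _ ⟨fun x y => ?_, fun x => ?_⟩
    · rw [stp, ent, mat_get]
      simp only [locInv, locComp, h.1, List.getElem_range]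
      cases ent s.1 a x <;> cases ent s.1 a y <;> cases ent s.1 x y <;> simp [Fin.ext_iff]
    · simp only [locInv, stp, h.1, h.2, List.getD_eq_getElem?_getD, List.getElem?_map,
        List.getElem?_range x.2, Option.map_some, Option.getD_some]
      cases ent s.1 a x <;> cases s.2[x.1]?.getD false <;> simp

def good (M : List (List Bool)) (w : List ℕ) : Prop :=
  ¬ ∃ x < M.length, ¬ (w.foldl (stp M.length) (M, [])).2.getD x false = true ∨
    ∃ y < M.length, ent (w.foldl (stp M.length) (M, [])).1 x y ≠ ent M x y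

lemma good_iff {M : List (List Bool)} (h : IsGraph M) (β : Fin M.length → ℤˣ) (w : List (Fin M.length)) :
    w.foldl locInv (graphOf M, β) = (graphOf M, -β) ↔ good M (w.map Fin.val) := by
  obtain ⟨a, b⟩ := rep β w (M, []) (graphOf M, β) ⟨adj_iff h, by simp⟩
  simp only [Prod.ext_iff, SimpleGraph.ext_iff, funext_iff, eq_iff_iff, a, b, adj_iff h, good,
    Fin.forall_iff, not_exists, not_and, not_or, not_not, ← Bool.eq_iff_iff, Pi.neg_apply,
    ite_eq_left_iff, imp_and, forall_and]
  rw [and_comm]
  refine and_congr_left' (forall₂_congr fun x _ => ⟨fun g => by_contra fun c => ?_, fun g c => absurd g c⟩)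
  have := congrArg Units.val (g c)
  have := (β ⟨x, ‹_›⟩).ne_zero
  simp only [Units.val_neg] at *; omega

lemma pp_good : PP fun z : List (List Bool) × List ℕ => good z.1 z.2 := by
  have : PT fun z : List (List Bool) × List ℕ => z.2.foldl (stp z.1.length) (z.1, []) := by
    refine PT.foldl_add (f := fun z : List (List Bool) × List ℕ => stp z.1.length)
      (by unfold stp; fun_prop) (by fun_prop) (by fun_prop)
      (X * (4 * X + 2) + 4 * X + 3) fun z s a => ?_
    have h1 := size_list_le (stp z.1.length s a).1 (z.1.length * 4 + 1) fun r hr => by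
      have := size_list_le r 3 fun b _ => size_bool b
      rwa [mat_row _ _ r hr, mat_length, List.length_range] at this
    have h2 := size_list_le (stp z.1.length s a).2 3 fun b _ => size_bool b
    have h3 := length_lt_size z.1
    have h4 := size_pair z.1 z.2
    have h7 := size_pair (stp z.1.length s a).1 (stp z.1.length s a).2
    have h8 : z.1.length ≤ size z + size a := by change _ ≤ size (z.1, z.2) + _; omega
    have h9 := Nat.mul_le_mul h8 h8
    simp only [stp, mat_length, List.length_range, List.length_map, eval_add, eval_mul, eval_X,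
      eval_ofNat] at *
    nlinarith
  exact PP.comp (p := fun p : List (List Bool) × St => ¬ ∃ x < p.1.length, ¬ p.2.2.getD x false = true ∨
    ∃ y < p.1.length, ent p.2.1 x y ≠ ent p.1 x y) (by fun_prop) (PT.id.fst.pair this)

theorem result : InFPT CR fun z => z.2 := by
  classical
  refine inFPT_of_pad (j := fun z => z.2 * z.2) (h := fun k => k * k) (F := fun p => decide
    (IsGraph p.1.1 ∧ p.1.1.length ≤ p.1.2 ∧ ∃ w ∈ words (List.range p.1.1.length) p.1.2 p.2,
      good p.1.1 w)) (PP.decide ?_) (by fun_prop) (Primrec.nat_mul.comp .id .id).to_comp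
    (fun _ => le_rfl) fun ⟨M, k⟩ => ?_
  · have := pp_isGraph
    have := pp_good
    fun_prop
  rw [decide_eq_true_eq]
  refine and_congr_right fun h => ⟨fun g => ?_, fun ⟨_, w, a, b⟩ β => ?_⟩
  · have l : M.length ≤ k := by simpa using lower g
    obtain ⟨w, a, b⟩ := g 1
    refine ⟨l, w.map Fin.val, (mem_words ?_).2 _ (by simpa) (by simp), (good_iff h _ _).1 b⟩
    rw [pow_mul]
    exact Nat.pow_le_pow_left (by have := @Nat.lt_two_pow_self k; simp; omega) _
  · obtain ⟨a1, a2⟩ := words_len _ _ _ w a
    lift w to List (Fin M.length) using fun x hx => by simpa using a2 x hx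
    exact ⟨w, by simpa using a1, (good_iff h _ _).2 b⟩

end Pool.Agent.Results.MP_3f5cd8_lc.FPT
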